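import Pool.Agent.Helper34.SD.Defs

/-!
# Post's tag system (MP_41f897_lc), project SD, module C2: counting by translations
-/

set_option autoImplicit false

namespace Pool.Agent.Helper73.SD

open Pool.Agent.Helper34.SD Pool.Agent.Helper34.PT

/-- A word with `t` letters `false` in front and `s` behind. -/
private def W (u : List Bool) (t s : ℕ) : List Bool :=
  List.replicate t false ++ u ++ List.replicate s false

private theorem W_length (u : List Bool) (t s : ℕ) : (W u t s).length = t + u.length + s := by
  simp [W, add_assoc]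

private theorem W_count (u : List Bool) (t s : ℕ) : (W u t s).count true = u.count true := by
  simp [W, List.count_replicate]

private theorem W_idx {u u1 : List Bool} (h : u = true :: u1) (t s : ℕ) :
    (W u t s).idxOf true = t := by
  subst h
  unfold W
  rw [List.append_assoc, List.idxOf_append_of_notMem (by simp [List.mem_replicate])]
  simp

private theorem W_rev (u : List Bool) (t s : ℕ) : (W u t s).reverse = W u.reverse s t := by
  simp [W, List.reverse_append]

private theorem W_ridx {u u2 : List Bool} (h : u = u2 ++ [true]) (t s : ℕ) :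
    (W u t s).reverse.idxOf true = s := by
  rw [W_rev]
  exact W_idx (u1 := u2.reverse) (by simp [h]) s t

private theorem W_inj {u u1 u2 v v1 v2 : List Bool} (h1 : u = true :: u1) (h2 : u = u2 ++ [true])
    (g1 : v = true :: v1) (g2 : v = v2 ++ [true]) {t s t' s' : ℕ} (h : W u t s = W v t' s') :
    t = t' ∧ s = s' ∧ u = v := by
  have a1 : t = t' := by rw [← W_idx h1 t s, h, W_idx g1 t' s']
  have a2 : s = s' := by rw [← W_ridx h2 t s, h, W_ridx g2 t' s']
  subst a1 a2
  refine ⟨rfl, rfl, ?_⟩
  unfold W at h
  exact List.append_cancel_left (List.append_cancel_right h)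

private theorem lead (w : List Bool) (h : true ∈ w) :
    ∃ (t : ℕ) (w' : List Bool), w = List.replicate t false ++ true :: w' := by
  induction w with
  | nil => simp at h
  | cons c w ih =>
    cases c with
    | true => exact ⟨0, w, rfl⟩
    | false =>
      obtain ⟨t, w', e⟩ := ih (by simpa using h)
      exact ⟨t + 1, w', by rw [e]; rfl⟩

private theorem trail (w : List Bool) (h : true ∈ w) :
    ∃ (s : ℕ) (w' : List Bool), w = w' ++ [true] ++ List.replicate s false := by
  obtain ⟨s, w', e⟩ := lead w.reverse (by simpa using h)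
  refine ⟨s, w'.reverse, ?_⟩
  have := congrArg List.reverse e
  rw [List.reverse_reverse] at this
  rw [this]
  simp

private theorem decomp (w : List Bool) (h : true ∈ w) : ∃ (u u1 u2 : List Bool) (t s : ℕ),
    u = true :: u1 ∧ u = u2 ++ [true] ∧ w = W u t s := by
  obtain ⟨t, w', e⟩ := lead w h
  obtain ⟨s, w2, e2⟩ := trail (true :: w') (by simp)
  cases w2 with
  | nil =>
    refine ⟨[true], [], [], t, s, rfl, rfl, ?_⟩
    rw [e, e2]
    simp [W]
  | cons c w3 =>
    have hc : c = true := by
      have := congrArg List.head? e2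
      simpa using this.symm
    subst hc
    refine ⟨true :: (w3 ++ [true]), w3 ++ [true], true :: w3, t, s, rfl, rfl, ?_⟩
    rw [e, e2]
    simp [W]

/-- The normal form: the first `idxOf % M` letters are moved to the end. -/
private def nf (M : ℕ) (w : List Bool) : List Bool :=
  w.drop (w.idxOf true % M) ++ List.replicate (w.idxOf true % M) false

private theorem nf_W (M : ℕ) {u u1 : List Bool} (h : u = true :: u1) (t s : ℕ) :
    nf M (W u t s) = W u (M * (t / M)) (s + t % M) := by
  unfold nf
  rw [W_idx h]
  have hr : t % M ≤ t := Nat.mod_le _ _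
  have e : t - t % M = M * (t / M) := by
    have := Nat.div_add_mod t M
    omega
  unfold W
  rw [List.append_assoc, List.drop_append_of_le_length (by simpa using hr), List.drop_replicate, e,
    List.replicate_add]
  simp [List.append_assoc]

private def Good (M : ℕ) (w : List Bool) : Prop :=
  M * (w.idxOf true / M) + M ≤ w.idxOf true + w.reverse.idxOf true + 1

theorem hC2 : Stmt_C1 → Stmt_C2a → Stmt_C2 := by
  classical
  intro hC1 hC2a Bad k M B hk hM hB n
  obtain ⟨hfin, hcard⟩ := hC1 n k
  obtain ⟨X, hX⟩ : ∃ X : Finset (List Bool), X = hfin.toFinset := ⟨_, rfl⟩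
  have hXm : ∀ w, w ∈ X ↔ w.length = n ∧ w.count true = k := by
    intro w
    rw [hX, Set.Finite.mem_toFinset]
    rfl
  have hXc : X.card = n.choose k := by
    rw [← hcard, Set.ncard_eq_toFinset_card _ hfin, hX]
  have htrue : ∀ w ∈ X, true ∈ w := by
    intro w hw
    have := ((hXm w).1 hw).2
    exact List.count_pos_iff.1 (by omega)
  obtain ⟨G, hG⟩ : ∃ G : Finset (List Bool), G = X.filter (Good M) := ⟨_, rfl⟩
  obtain ⟨GB, hGB⟩ : ∃ GB : Finset (List Bool), GB = G.filter Bad := ⟨_, rfl⟩
  -- the family of a good word
  have fam : ∀ w ∈ G, ∃ (u u1 u2 : List Bool) (q S : ℕ), u = true :: u1 ∧ u = u2 ++ [true] ∧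
      M * q + M ≤ S + 1 ∧ u.count true = k ∧ S + u.length = n ∧
      nf M w = W u (M * q) (S - M * q) := by
    intro w hw
    rw [hG, Finset.mem_filter] at hw
    obtain ⟨hwX, hwG⟩ := hw
    obtain ⟨u, u1, u2, t, s, h1, h2, e⟩ := decomp w (htrue w hwX)
    have hl := (hXm w).1 hwX
    rw [e, W_length, W_count] at hl
    unfold Good at hwG
    rw [e, W_idx h1, W_ridx h2] at hwG
    refine ⟨u, u1, u2, t / M, t + s, h1, h2, hwG, hl.2, by omega, ?_⟩
    rw [e, nf_W M h1]
    congr 1
    have := Nat.div_add_mod t M
    omega
  -- members of the family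
  have memG : ∀ (u u1 u2 : List Bool) (q S : ℕ), u = true :: u1 → u = u2 ++ [true] →
      M * q + M ≤ S + 1 → u.count true = k → S + u.length = n → ∀ j < M,
      W u (M * q + j) (S - (M * q + j)) ∈ G ∧
        nf M (W u (M * q + j) (S - (M * q + j))) = W u (M * q) (S - M * q) := by
    intro u u1 u2 q S h1 h2 hq hc hl j hj
    have hdiv : (M * q + j) / M = q := by
      rw [Nat.mul_add_div (by omega), Nat.div_eq_of_lt hj, add_zero]
    have hmod : (M * q + j) % M = j := by
      rw [Nat.mul_add_mod, Nat.mod_eq_of_lt hj]
    constructor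
    · rw [hG, Finset.mem_filter, hXm, W_length, W_count]
      refine ⟨⟨by omega, hc⟩, ?_⟩
      unfold Good
      rw [W_idx h1, W_ridx h2, hdiv]
      omega
    · rw [nf_W M h1, hdiv, hmod]
      congr 1
      omega
  have fibG : ∀ a ∈ G.image (nf M), M ≤ (G.filter fun x => nf M x = a).card := by
    intro a ha
    obtain ⟨w, hw, rfl⟩ := Finset.mem_image.1 ha
    obtain ⟨u, u1, u2, q, S, h1, h2, hq, hc, hl, e⟩ := fam w hw
    have hm := memG u u1 u2 q S h1 h2 hq hc hl
    have hsub : (Finset.range M).image (fun j => W u (M * q + j) (S - (M * q + j))) ⊆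
        G.filter fun x => nf M x = nf M w := by
      intro x hx
      obtain ⟨j, hj, rfl⟩ := Finset.mem_image.1 hx
      have := hm j (Finset.mem_range.1 hj)
      rw [Finset.mem_filter, e]
      exact this
    calc M = (Finset.range M).card := (Finset.card_range M).symm
      _ = ((Finset.range M).image (fun j => W u (M * q + j) (S - (M * q + j)))).card := by
          rw [Finset.card_image_of_injOn]
          intro i _ j _ hij
          have := (W_inj h1 h2 h1 h2 hij).1
          omega
      _ ≤ _ := Finset.card_le_card hsub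
  have fibGB : ∀ a ∈ GB.image (nf M), (GB.filter fun x => nf M x = a).card ≤ B := by
    intro a ha
    obtain ⟨w, hw, rfl⟩ := Finset.mem_image.1 ha
    have hwG : w ∈ G := by
      rw [hGB] at hw
      exact (Finset.mem_filter.1 hw).1
    obtain ⟨u, u1, u2, q, S, h1, h2, hq, hc, hl, e⟩ := fam w hwG
    have hb := hB u q S hc hq
    have hset : {r : ℕ | r < M ∧ Bad (List.replicate (M * q + r) false ++ u ++
        List.replicate (S - (M * q + r)) false)} =
        (((Finset.range M).filter fun r => Bad (W u (M * q + r) (S - (M * q + r)))) : Set ℕ) := by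
      ext r
      simp [W]
    rw [hset, Set.ncard_coe_finset] at hb
    refine le_trans ?_ hb
    refine le_trans (Finset.card_le_card ?_) (Finset.card_image_le
      (f := fun j => W u (M * q + j) (S - (M * q + j))))
    intro x hx
    rw [Finset.mem_filter, hGB, Finset.mem_filter] at hx
    obtain ⟨⟨hxG, hxB⟩, hxn⟩ := hx
    have hxX : x ∈ X := by
      rw [hG] at hxG
      exact (Finset.mem_filter.1 hxG).1
    obtain ⟨v, v1, v2, t, s, g1, g2, ex⟩ := decomp x (htrue x hxX)
    have hle := (hXm x).1 hxX
    rw [ex, W_length, W_count] at hle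
    rw [e, ex, nf_W M g1] at hxn
    obtain ⟨a1, a2, a3⟩ := W_inj g1 g2 h1 h2 hxn
    subst a3
    have hdm := Nat.div_add_mod t M
    have hlt := Nat.mod_lt t (show 0 < M by omega)
    have ht : M * q + t % M = t := by omega
    have hs : S - (M * q + t % M) = s := by omega
    rw [Finset.mem_image]
    refine ⟨t % M, ?_, ?_⟩
    · rw [Finset.mem_filter, Finset.mem_range]
      refine ⟨hlt, ?_⟩
      rw [hs, ht, ← ex]
      exact hxB
    · show W v (M * q + t % M) (S - (M * q + t % M)) = x
      rw [hs, ht, ← ex]
  have c1 : GB.card ≤ B * (GB.image (nf M)).card := Finset.card_le_mul_card_image GB B fibGB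
  have c2 : M * (G.image (nf M)).card ≤ G.card := Finset.mul_card_image_le_card G M fibG
  have c3 : (GB.image (nf M)).card ≤ (G.image (nf M)).card :=
    Finset.card_le_card (Finset.image_subset_image (by rw [hGB]; exact Finset.filter_subset _ _))
  have c4 : G.card ≤ n.choose k := by
    rw [← hXc, hG]
    exact Finset.card_le_card (Finset.filter_subset _ _)
  have c5 : M * GB.card ≤ B * n.choose k := by
    calc M * GB.card ≤ M * (B * (GB.image (nf M)).card) := Nat.mul_le_mul_left M c1
      _ ≤ M * (B * (G.image (nf M)).card) :=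
          Nat.mul_le_mul_left M (Nat.mul_le_mul_left B c3)
      _ = B * (M * (G.image (nf M)).card) := by ring
      _ ≤ B * n.choose k := Nat.mul_le_mul_left B (c2.trans c4)
  -- the words which are not good
  have c6 : (X.filter fun w => ¬ Good M w).card ≤ M * (n - 1).choose (k - 1) := by
    refine le_trans ?_ (hC2a n k M hk)
    rw [← Set.ncard_coe_finset]
    refine Set.ncard_le_ncard ?_ (hfin.subset fun w hw => ⟨hw.1, hw.2.1⟩)
    intro w hw
    have hw' := Finset.mem_filter.1 (Finset.mem_coe.1 hw)
    obtain ⟨hwX, hwn⟩ := hw'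
    have hl := (hXm w).1 hwX
    refine ⟨hl.1, hl.2, ?_⟩
    obtain ⟨u, u1, u2, t, s, h1, h2, e⟩ := decomp w (htrue w hwX)
    have hl1 := hl.1
    rw [e, W_length] at hl1
    unfold Good at hwn
    rw [e, W_idx h1, W_ridx h2] at hwn
    have hdm := Nat.div_add_mod t M
    have hlt := Nat.mod_lt t (show 0 < M by omega)
    have hs : s + 1 ≤ M := by omega
    have hu : u.length = u2.length + 1 := by rw [h2]; simp
    have e2 : w = (List.replicate t false ++ u2) ++ (true :: List.replicate s false) := by
      rw [e, h2]
      simp [W]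
    rw [e2, List.drop_append_of_le_length (by simp; omega)]
    simp
  have hset : {w : List Bool | w.length = n ∧ w.count true = k ∧ Bad w} =
      ((X.filter Bad : Finset (List Bool)) : Set (List Bool)) := by
    ext w
    rw [Finset.mem_coe, Finset.mem_filter, hXm]
    simp [and_assoc]
  rw [hset, Set.ncard_coe_finset]
  have c7 : (X.filter Bad).card ≤ GB.card + (X.filter fun w => ¬ Good M w).card := by
    refine le_trans (Finset.card_le_card ?_) (Finset.card_union_le _ _)
    intro w hw
    obtain ⟨hwX, hwB⟩ := Finset.mem_filter.1 hw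
    rw [Finset.mem_union]
    by_cases hg : Good M w
    · left
      rw [hGB, Finset.mem_filter, hG, Finset.mem_filter]
      exact ⟨⟨hwX, hg⟩, hwB⟩
    · right
      exact Finset.mem_filter.2 ⟨hwX, hg⟩
  calc M * (X.filter Bad).card ≤ M * (GB.card + (X.filter fun w => ¬ Good M w).card) :=
        Nat.mul_le_mul_left M c7
    _ = M * GB.card + M * (X.filter fun w => ¬ Good M w).card := by ring
    _ ≤ B * n.choose k + M * (M * (n - 1).choose (k - 1)) :=
        Nat.add_le_add c5 (Nat.mul_le_mul_left M c6)

end Pool.Agent.Helper73.SD
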